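import Mathlib
import Pool.Agent.H71.Lie6

namespace Pool.Agent.Results.MP_87c52b_gt.IsLie

open TopologicalSpace
open scoped Manifold ContDiff

theorem result (G : Type) [Group G] [TopologicalSpace G] [IsTopologicalGroup G] [T2Space G]
    (hpseudo : ∀ f : G → ℝ, Continuous f → ∃ C : ℝ, ∀ x, |f x| ≤ C)
    (hminimal : ∀ (H : Type) [Group H] [TopologicalSpace H] [IsTopologicalGroup H] [T2Space H]
      (f : G ≃* H), Continuous f → Continuous f.symm)
    (hZ : ∀ T : Subgroup G, IsClosed (T : Set G) →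
      IsTopologicalBasis {s : Set T | IsClopen s} → DiscreteTopology T) :
    CompactSpace G ∧
      ∃ (E : Type) (_ : NormedAddCommGroup E) (_ : NormedSpace ℝ E) (_ : FiniteDimensional ℝ E)
        (_ : ChartedSpace E G), LieGroup 𝓘(ℝ, E) ω G :=
  have h := H71.Lie.final_lie hpseudo hminimal fun T a b _ => hZ T a b
  ⟨h.1, h.2.2⟩

end Pool.Agent.Results.MP_87c52b_gt.IsLie
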